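import Pool.Agent.Lib.MP_f76be0_co.Common

namespace Pool.Agent.Results.MP_f76be0_co.CommonNeighbours

open Pool.Agent.Lib.MP_f76be0_co

/-- If any two nonadjacent vertices of a graph with more than `k` vertices have at least `k` common
neighbours, then the graph is `k`-connected and has, for every root `r`, `k` pairwise
`r`-independent spanning trees. -/
theorem result {V : Type} [Fintype V] (G : SimpleGraph V) (k : ℕ) (hn : k < Fintype.card V)
    (h : ∀ x y, x ≠ y → ¬ G.Adj x y → k ≤ (G.commonNeighbors x y).ncard) :
    KConnected G k ∧ ∀ r : V, ∃ T : Fin k → SimpleGraph V, (∀ i, T i ≤ G ∧ (T i).IsTree) ∧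
      ∀ i j, i ≠ j → Independent r (T i) (T j) :=
  ⟨common_connected G k hn h, fun r => common_trees G k hn h r⟩

end Pool.Agent.Results.MP_f76be0_co.CommonNeighbours
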