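import Pool.Agent.Lib.MP_f76be0_co.Extract

namespace Pool.Agent.Results.MP_f76be0_co.FewVertices

open Pool.Agent.Lib.MP_f76be0_co

/-- For every unbounded function `g`, the conjecture on independent spanning trees holds for all
`k`-connected graphs and all roots if and only if it holds for all `k`-connected graphs with at
most `k + g k` vertices and all roots with exactly `k` neighbours. -/
theorem result (g : ℕ → ℕ) (hg : ¬ BddAbove (Set.range g)) :
    (∀ (k : ℕ) (V : Type) [Fintype V] (G : SimpleGraph V) (r : V), KConnected G k →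
      ∃ T : Fin k → SimpleGraph V, (∀ i, T i ≤ G ∧ (T i).IsTree) ∧
        ∀ i j, i ≠ j → Independent r (T i) (T j)) ↔
    (∀ (k : ℕ) (V : Type) [Fintype V] (G : SimpleGraph V) (r : V),
      Fintype.card V ≤ k + g k → (G.neighborSet r).ncard = k → KConnected G k →
      ∃ T : Fin k → SimpleGraph V, (∀ i, T i ≤ G ∧ (T i).IsTree) ∧
        ∀ i j, i ≠ j → Independent r (T i) (T j)) :=
  ⟨fun h k V _ G r _ _ hk => h k V G r hk, fun h => reduce g hg h⟩

end Pool.Agent.Results.MP_f76be0_co.FewVertices
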