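import Pool.Agent.Lib.MP_f76be0_co.LinearDegree

namespace Pool.Agent.Results.MP_f76be0_co.LinearDegree

open Pool.Agent.Lib.MP_f76be0_co Finset

/-- For every `c > 0` there is a constant `C` such that every `C k`-connected graph on `n` vertices
with minimum degree at least `c n` has, for every root `r`, `k` pairwise `r`-independent spanning
trees. -/
theorem result (c : ℝ) (hc : 0 < c) : ∃ C : ℕ, ∀ (V : Type) [Fintype V] [DecidableEq V]
    (G : SimpleGraph V) [DecidableRel G.Adj] (k : ℕ),
    c * (Fintype.card V : ℝ) ≤ G.minDegree → KConnected G (C * k) → ∀ r : V,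
    ∃ T : Fin k → SimpleGraph V, (∀ i, T i ≤ G ∧ (T i).IsTree) ∧
      ∀ i j, i ≠ j → Independent r (T i) (T j) := by
  obtain ⟨C, hC⟩ := linear_degree c hc
  refine ⟨C, ?_⟩
  intro V _ _ G _ k hδ hk r
  refine hC V G k G.minDegree ?_ hδ hk r
  intro v
  have e : univ.filter (fun u => G.Adj v u) = G.neighborFinset v := by
    ext u
    rw [mem_filter, SimpleGraph.mem_neighborFinset]
    exact ⟨fun h => h.2, fun h => ⟨mem_univ _, h⟩⟩
  rw [e, SimpleGraph.card_neighborFinset_eq_degree]
  exact G.minDegree_le_degree v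

end Pool.Agent.Results.MP_f76be0_co.LinearDegree
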