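import Pool.Agent.Lib.MP_f76be0_co.Linear

namespace Pool.Agent.Results.MP_f76be0_co.LinearThird

open Pool.Agent.Lib.MP_f76be0_co Finset

/-- Every `k`-connected graph on `n` vertices with minimum degree at least `n / 3 + 40 k` has, for
every root `r`, `k` pairwise `r`-independent spanning trees. -/
theorem result {V : Type} [Fintype V] [DecidableEq V] (G : SimpleGraph V) [DecidableRel G.Adj]
    (k : ℕ) (hk : KConnected G k) (hδ : Fintype.card V + 120 * k ≤ 3 * G.minDegree) (r : V) :
    ∃ T : Fin k → SimpleGraph V, (∀ i, T i ≤ G ∧ (T i).IsTree) ∧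
      ∀ i j, i ≠ j → Independent r (T i) (T j) := by
  rcases Nat.eq_zero_or_pos k with rfl | hk1
  · exact ⟨fun i => i.elim0, fun i => i.elim0, fun i => i.elim0⟩
  · refine linear_third G hk1 hk (δ := G.minDegree) ?_ hδ r
    intro v
    have e : univ.filter (fun u => G.Adj v u) = G.neighborFinset v := by
      ext u
      rw [mem_filter, SimpleGraph.mem_neighborFinset]
      exact ⟨fun h => h.2, fun h => ⟨mem_univ _, h⟩⟩
    rw [e, SimpleGraph.card_neighborFinset_eq_degree]
    exact G.minDegree_le_degree v

end Pool.Agent.Results.MP_f76be0_co.LinearThird
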